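import Mathlib
import Pool.Agent.V1119.ISO.Pair

/-!
# The isomorphism problem for self-similar groups (automaton groups) is undecidable

A finite invertible automaton is given by its table; `autGroup k T` is the group of permutations of
the set of words over the alphabet `{0, …, k - 1}` generated by the states of the automaton with
the table `T`.
-/

set_option autoImplicit false

namespace Pool.Agent.Results.MP_56d946_al.IsoUndecidable

open Pool.Agent.V1119.ISO

/-- **The isomorphism problem for automaton groups is undecidable.** There is no algorithm which,
given two finite invertible automata (over arbitrary alphabets, with arbitrary numbers of states),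
decides whether the groups they generate are isomorphic. Moreover, there is none for automata over
an alphabet with eighteen letters. -/
theorem result :
    (¬ ∃ f : (ℕ × Table) × (ℕ × Table) → Bool, Computable f ∧
      ∀ (k k' : ℕ) (T T' : Table), 2 ≤ k → 2 ≤ k' → IsAutomaton k T → IsAutomaton k' T' →
        (f ((k, T), (k', T')) = true ↔ Nonempty (autGroup k T ≃* autGroup k' T'))) ∧
    (¬ ∃ f : Table × Table → Bool, Computable f ∧
      ∀ T T' : Table, IsAutomaton 18 T → IsAutomaton 18 T' →
        (f (T, T') = true ↔ Nonempty (autGroup 18 T ≃* autGroup 18 T'))) := by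
  have h2 : ¬ ∃ f : Table × Table → Bool, Computable f ∧
      ∀ T T' : Table, IsAutomaton 18 T → IsAutomaton 18 T' →
        (f (T, T') = true ↔ Nonempty (autGroup 18 T ≃* autGroup 18 T')) := by
    rintro ⟨f, hf, h⟩
    obtain ⟨A, B, hA, hB, hAB, hnc⟩ := exists_family
    apply hnc
    refine ComputablePred.computable_iff.2 ⟨fun n => f (A n, B n), hf.comp (hA.pair hB), ?_⟩
    funext n
    rw [eq_iff_iff, ← h _ _ (hAB n).1 (hAB n).2]
  refine ⟨?_, h2⟩
  rintro ⟨f, hf, h⟩
  apply h2
  refine ⟨fun p => f ((18, p.1), (18, p.2)), ?_, fun T T' hT hT' =>
    h 18 18 T T' (by norm_num) (by norm_num) hT hT'⟩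
  exact hf.comp (((Computable.const 18).pair Computable.fst).pair
    ((Computable.const 18).pair Computable.snd))

end Pool.Agent.Results.MP_56d946_al.IsoUndecidable
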